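import Pool.Agent.Helper83.CB.Defs3

/-! # EV, EVEN, EQP: polynomial calculus of commuting families, even forms -/

open Filter Topology MeasureTheory

namespace Pool.Agent.Helper83.CB

theorem st_EV : ST_EV := by
  intro q A _ _ f hf
  have hcomm : ∀ a ∈ Set.range f, ∀ b ∈ Set.range f, a * b = b * a := by
    rintro _ ⟨i, rfl⟩ _ ⟨j, rfl⟩
    exact hf i j
  let _ : CommRing (Algebra.adjoin ℝ (Set.range f)) :=
    { (Algebra.adjoin ℝ (Set.range f)).toRing with
      mul_comm := fun a b => (Algebra.isMulCommutative_adjoin ℝ hcomm).is_comm.comm a b }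
  let g : Fin q → Algebra.adjoin ℝ (Set.range f) := fun i =>
    ⟨f i, Algebra.subset_adjoin ⟨i, rfl⟩⟩
  let Ψ : MvPolynomial (Fin q) ℝ →ₐ[ℝ] Algebra.adjoin ℝ (Set.range f) := MvPolynomial.aeval g
  have key : ∀ P, ((Ψ P : Algebra.adjoin ℝ (Set.range f)) : A) = evc f P := by
    intro P
    have h1 : Ψ P = ∑ s ∈ P.support, MvPolynomial.coeff s P • ∏ i, g i ^ s i := by
      change MvPolynomial.aeval g P = _
      rw [MvPolynomial.aeval_def, MvPolynomial.eval₂_eq']
      refine Finset.sum_congr rfl fun s _ => ?_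
      rw [Algebra.smul_def]
    rw [h1, evc]
    have h2 : ∀ (S : Finset (Fin q →₀ ℕ)), (((∑ s ∈ S, MvPolynomial.coeff s P • ∏ i, g i ^ s i :
        Algebra.adjoin ℝ (Set.range f))) : A) =
        ∑ s ∈ S, MvPolynomial.coeff s P • (List.ofFn fun i => f i ^ s i).prod := by
      intro S
      have h3 := map_sum (Algebra.adjoin ℝ (Set.range f)).val
        (fun s => MvPolynomial.coeff s P • ∏ i, g i ^ s i) S
      refine h3.trans (Finset.sum_congr rfl fun s _ => ?_)
      rw [map_smul]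
      congr 1
      rw [← List.prod_ofFn]
      have h4 := map_list_prod (Algebra.adjoin ℝ (Set.range f)).val (List.ofFn fun i => g i ^ s i)
      refine h4.trans ?_
      congr 1
      rw [List.map_ofFn]
      rfl
    exact h2 _
  refine ⟨(Algebra.adjoin ℝ (Set.range f)).val.comp Ψ, fun P => key P, fun i => ?_, fun P => ?_⟩
  · change ((Ψ (MvPolynomial.X i) : Algebra.adjoin ℝ (Set.range f)) : A) = f i
    have : Ψ (MvPolynomial.X i) = g i := MvPolynomial.aeval_X g i
    rw [this]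
  · rw [← key P]
    exact (Ψ P).2

theorem st_EVEN : ST_EVEN := by
  intro ι _ _ Λ
  have h1 : ∀ a ∈ Λ.ev, ∀ μ, a * Λ.e μ = Λ.e μ * a := by
    intro a ha μ
    have hle : Λ.ev ≤ Subalgebra.centralizer ℝ {Λ.e μ} := by
      refine Algebra.adjoin_le ?_
      rintro _ ⟨μ', ν', rfl⟩
      rw [SetLike.mem_coe, Subalgebra.mem_centralizer_iff]
      rintro g hg
      rw [Set.mem_singleton_iff] at hg
      subst hg
      calc Λ.e μ * (Λ.e μ' * Λ.e ν') = (Λ.e μ * Λ.e μ') * Λ.e ν' := (mul_assoc _ _ _).symm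
        _ = -(Λ.e μ' * Λ.e μ) * Λ.e ν' := by rw [Λ.ee μ μ']
        _ = -(Λ.e μ' * (Λ.e μ * Λ.e ν')) := by rw [neg_mul, mul_assoc]
        _ = -(Λ.e μ' * -(Λ.e ν' * Λ.e μ)) := by rw [Λ.ee μ ν']
        _ = Λ.e μ' * Λ.e ν' * Λ.e μ := by rw [mul_neg, neg_neg, mul_assoc]
    have := hle ha
    rw [Subalgebra.mem_centralizer_iff] at this
    exact (this _ rfl).symm
  refine ⟨h1, ?_, ?_⟩
  · intro a ha b hb
    have hle : Λ.ev ≤ Subalgebra.centralizer ℝ {a} := by
      refine Algebra.adjoin_le ?_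
      rintro _ ⟨μ', ν', rfl⟩
      rw [SetLike.mem_coe, Subalgebra.mem_centralizer_iff]
      rintro g hg
      rw [Set.mem_singleton_iff] at hg
      subst hg
      rw [← mul_assoc, h1 g ha μ', mul_assoc, h1 g ha ν', mul_assoc]
    have := hle hb
    rw [Subalgebra.mem_centralizer_iff] at this
    exact this _ rfl
  · intro φ
    rw [Ext.two]
    refine Subalgebra.smul_mem _ (Subalgebra.sum_mem _ fun μ _ => Subalgebra.sum_mem _ fun ν _ =>
      Subalgebra.smul_mem _ ?_ _) _
    exact Algebra.subset_adjoin (s := {a | ∃ μ ν, a = Λ.e μ * Λ.e ν}) ⟨μ, ν, rfl⟩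

theorem EQP_two_sum {ι : Type} [Fintype ι] [DecidableEq ι] (Λ : Ext ι) {r : ℕ}
    (t : Fin r → ℝ) (φ : Fin r → ι → ι → ℝ) :
    Λ.two (fun μ ν => ∑ j, t j * φ j μ ν) = ∑ j, t j • Λ.two (φ j) := by
  simp only [Ext.two, Finset.smul_sum, Finset.sum_smul]
  rw [Finset.sum_comm' (s := (Finset.univ : Finset (Fin r))) (t := fun _ => (Finset.univ : Finset ι))
    (t' := (Finset.univ : Finset ι)) (s' := fun _ => (Finset.univ : Finset (Fin r)))
    (by simp)]
  refine Finset.sum_congr rfl fun μ _ => ?_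
  rw [Finset.sum_comm]
  refine Finset.sum_congr rfl fun j _ => Finset.sum_congr rfl fun ν _ => ?_
  simp only [smul_smul]
  congr 1
  ring

theorem st_EQP (hEV : ST_EV) (hEVEN : ST_EVEN) : ST_EQP := by
  intro ι _ _ Λ n q q' c c' P P' f hPP F hF
  obtain ⟨-, hcomm, htwo⟩ := hEVEN ι Λ
  classical
  have hfinR : FiniteDimensional ℝ (M n) := FiniteDimensional.complexToReal (M n)
  have hfinf : FiniteDimensional ℝ f := inferInstance
  have hfree : Module.Free ℝ f := Module.Free.of_divisionRing ℝ f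
  let B := Module.finBasis ℝ f
  set r := Module.finrank ℝ f with hr
  let φ : Fin r → ι → ι → ℝ := fun j μ ν => B.repr ⟨F μ ν, hF μ ν⟩ j
  let T : Fin r → (Λ.X →L[ℝ] Λ.X) := fun j => Λ.two (φ j)
  obtain ⟨Φ, hΦ, hΦX, -⟩ := hEV r (Λ.X →L[ℝ] Λ.X) T
    (fun i j => hcomm _ (htwo _) _ (htwo _))
  have hFs : ∀ μ ν, F μ ν = ∑ j, φ j μ ν • (B j : M n) := by
    intro μ ν
    have h1 := B.sum_repr ⟨F μ ν, hF μ ν⟩
    have h2 := congrArg (Subtype.val) h1
    refine h2.symm.trans ?_
    rw [AddSubmonoidClass.coe_finsetSum]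
    rfl
  -- main identity
  have main : ∀ (q : ℕ) (c : Fin q → (M n →ₗ[ℝ] ℝ)) (P : MvPolynomial (Fin q) ℝ),
      PF Λ c P F = Φ (MvPolynomial.aeval
        (fun a => ∑ j, MvPolynomial.C (c a (B j : M n)) * MvPolynomial.X j :
          Fin q → MvPolynomial (Fin r) ℝ) P) := by
    intro q c P
    obtain ⟨Φ', hΦ', hΦX', -⟩ := hEV q (Λ.X →L[ℝ] Λ.X)
      (fun a => Λ.two fun μ ν => c a (F μ ν)) (fun i j => hcomm _ (htwo _) _ (htwo _))
    rw [PF, ← hΦ' P]
    have h3 : Φ' = Φ.comp (MvPolynomial.aeval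
        (fun a => ∑ j, MvPolynomial.C (c a (B j : M n)) * MvPolynomial.X j :
          Fin q → MvPolynomial (Fin r) ℝ)) := by
      refine MvPolynomial.algHom_ext fun a => ?_
      rw [hΦX', AlgHom.comp_apply, MvPolynomial.aeval_X, map_sum]
      have h4 : (fun μ ν => c a (F μ ν)) = fun μ ν => ∑ j, c a (B j : M n) * φ j μ ν := by
        funext μ ν
        rw [hFs μ ν, map_sum]
        refine Finset.sum_congr rfl fun j _ => ?_
        rw [map_smul, smul_eq_mul, mul_comm]
      rw [h4, EQP_two_sum]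
      refine Finset.sum_congr rfl fun j _ => ?_
      rw [map_mul, hΦX, ← MvPolynomial.algebraMap_eq, AlgHom.commutes, ← Algebra.smul_def]
    rw [h3]
    rfl
  rw [main q c P, main q' c' P']
  congr 1
  refine MvPolynomial.funext fun y => ?_
  have ev : ∀ (q : ℕ) (c : Fin q → (M n →ₗ[ℝ] ℝ)) (P : MvPolynomial (Fin q) ℝ),
      MvPolynomial.eval y (MvPolynomial.aeval
        (fun a => ∑ j, MvPolynomial.C (c a (B j : M n)) * MvPolynomial.X j :
          Fin q → MvPolynomial (Fin r) ℝ) P) =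
      MvPolynomial.eval (fun a => c a (((∑ j, y j • B j : f)) : M n)) P := by
    intro q c P
    rw [MvPolynomial.aeval_def, ← MvPolynomial.coe_eval₂Hom, ← RingHom.comp_apply]
    refine DFunLike.congr_fun (F := MvPolynomial (Fin q) ℝ →+* ℝ) ?_ P
    refine MvPolynomial.ringHom_ext (fun t => ?_) (fun a => ?_)
    · simp
    · simp only [RingHom.comp_apply, MvPolynomial.coe_eval₂Hom, MvPolynomial.eval₂_X,
        MvPolynomial.eval_X, map_sum, map_mul, MvPolynomial.eval_C,
        AddSubmonoidClass.coe_finsetSum, Submodule.coe_smul, map_smul, smul_eq_mul]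
      exact Finset.sum_congr rfl fun j _ => mul_comm _ _
  rw [ev, ev]
  exact hPP _ (Subtype.property _)

end Pool.Agent.Helper83.CB
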